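import Mathlib

namespace Pool.Agent.H.MP_bda3cd_nt

def big : ℕ := 3340992966780876891978798707751234329674262385101603060901675774175939990472187054287581391387492246652339272783868763504573239338876650457000293545523146724741795960229943016948462288995535129134128022217452063503154282760692866722934444935789532662654132024745878053011952537017439870479672629987435268963781664418916367432212384452256823685496179780249672353228038850632720757176001506469262927178334866678545326959609922740365919358734245601725488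

def f1 (x : ℕ) : ℕ := if x = 0 then 0 else 1 + (x - 1) % 4

def T (a b c d : ℕ) : ℕ := (big >>> (3 * (((f1 a * 5 + f1 b) * 5 + f1 c) * 4 + d % 4))) % 8 + 1

def ea (i : ℕ) : ℕ := if i = 8 then 3 else if i = 4 then 2 else if i % 2 = 0 then 1 else 0
def eb (i : ℕ) : ℕ := if i % 3 = 0 then 1 else 0
def ec (i : ℕ) : ℕ := if i = 5 then 1 else 0
def ed (i : ℕ) : ℕ := if i = 7 then 1 else 0

def U (i a b c d : ℕ) : ℕ := T (ea i + a) (eb i + b) (ec i + c) (ed i + d)

def ok (a b c d : ℕ) : Bool :=
  (List.range 9).all fun j => (List.range j).all fun i => i == 0 || U i a b c d != U j a b c d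

lemma chk0 : ((List.range 5).all fun a => (List.range 5).all fun b => (List.range 5).all fun c =>
    (List.range 4).all fun d => ok a b c d) = true := by decide +kernel

lemma chk : ∀ a < 5, ∀ b < 5, ∀ c < 5, ∀ d < 4, ∀ j < 9, ∀ i < j, 1 ≤ i →
    U i a b c d ≠ U j a b c d := by
  intro a ha b hb c hc d hd j hj i hi h1
  have h := chk0
  simp only [ok, List.all_eq_true, List.mem_range, Bool.or_eq_true, beq_iff_eq, bne_iff_ne] at h
  rcases h a ha b hb c hc d hd j hj i hi with h | h
  · omega
  · exact h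

lemma f1_add (e x : ℕ) : f1 (e + x) = f1 (e + f1 x) := by
  unfold f1; split_ifs <;> omega

lemma f1_lt (x : ℕ) : f1 x < 5 := by unfold f1; split_ifs <;> omega

lemma U_ne (a b c d i j : ℕ) (h1 : 1 ≤ i) (h2 : i < j) (h3 : j ≤ 8) :
    U i a b c d ≠ U j a b c d := by
  have h := chk (f1 a) (f1_lt a) (f1 b) (f1_lt b) (f1 c) (f1_lt c) (d % 4) (Nat.mod_lt _ (by norm_num))
    j (by omega) i h2 h1
  simp only [U, T, ← f1_add, Nat.add_mod_mod] at h ⊢
  exact h

noncomputable def col (m : ℕ) : ℕ :=
  T (m.factorization 2) (m.factorization 3) (m.factorization 5) (m.factorization 7)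

lemma col_mul (a b c d x : ℕ) (hx : x ≠ 0) : col (2 ^ a * 3 ^ b * 5 ^ c * 7 ^ d * x) =
    T (a + x.factorization 2) (b + x.factorization 3) (c + x.factorization 5)
      (d + x.factorization 7) := by
  have h7 : Nat.Prime 7 := by norm_num
  unfold col
  rw [Nat.factorization_mul (by positivity) hx, Nat.factorization_mul (by positivity) (by positivity),
    Nat.factorization_mul (by positivity) (by positivity),
    Nat.factorization_mul (by positivity) (by positivity), Nat.prime_two.factorization_pow,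
    Nat.prime_three.factorization_pow, Nat.prime_five.factorization_pow, h7.factorization_pow]
  simp

lemma col_val (a b c d : ℕ) : col (2 ^ a * 3 ^ b * 5 ^ c * 7 ^ d) = T a b c d := by
  have := col_mul a b c d 1 one_ne_zero
  simpa using this

lemma e_eq : ∀ i < 9, 1 ≤ i → i = 2 ^ ea i * 3 ^ eb i * 5 ^ ec i * 7 ^ ed i := by decide

lemma col_U (i x : ℕ) (h1 : 1 ≤ i) (h2 : i ≤ 8) (hx : x ≠ 0) : col (i * x) =
    U i (x.factorization 2) (x.factorization 3) (x.factorization 5) (x.factorization 7) := by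
  conv_lhs => rw [e_eq i (by omega) h1]
  exact col_mul _ _ _ _ x hx

lemma col_ne (x i j : ℕ) (hx : x ≠ 0) (h1 : 1 ≤ i) (h2 : i < j) (h3 : j ≤ 8) :
    col (i * x) ≠ col (j * x) := by
  rw [col_U i x h1 (by omega) hx, col_U j x (by omega) h3 hx]
  exact U_ne _ _ _ _ i j h1 h2 h3

lemma col_range (m : ℕ) : 1 ≤ col m ∧ col m ≤ 8 := by
  unfold col T; omega

lemma col_small (i : ℕ) (h1 : 1 ≤ i) (h2 : i ≤ 8) : col i = i := by
  have h : ∀ i < 9, 1 ≤ i → T (ea i) (eb i) (ec i) (ed i) = i := by decide +kernel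
  conv_lhs => rw [e_eq i (by omega) h1]
  rw [col_val]; exact h i (by omega) h1

lemma col_vals : col 35 = 8 ∧ col 70 = 4 ∧ col 105 = 1 ∧ col 140 = 2 ∧ col 14 = 3 ∧ col 28 = 6 := by
  have h : T 0 0 1 1 = 8 ∧ T 1 0 1 1 = 4 ∧ T 0 1 1 1 = 1 ∧ T 2 0 1 1 = 2 ∧ T 1 0 0 1 = 3 ∧
    T 2 0 0 1 = 6 := by decide +kernel
  simp only [← col_val] at h
  norm_num at h
  exact h

end Pool.Agent.H.MP_bda3cd_nt
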